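import Mathlib

namespace Pool.Agent.Work.MP_cb32b9_nt

/-- If the ratios `(x ^ t - 1) / (x - 1)` are equal for `x` and `y` when `t = 4, 10, 23, 25`
then `x = y`, in any field. -/
theorem core {K : Type*} [Field K] (x y : K) (hne : x ≠ y)
    (h4 : ∑ k ∈ Finset.range 4, x ^ k = ∑ k ∈ Finset.range 4, y ^ k)
    (h10 : ∑ k ∈ Finset.range 10, x ^ k = ∑ k ∈ Finset.range 10, y ^ k)
    (h23 : ∑ k ∈ Finset.range 23, x ^ k = ∑ k ∈ Finset.range 23, y ^ k)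
    (h25 : ∑ k ∈ Finset.range 25, x ^ k = ∑ k ∈ Finset.range 25, y ^ k) : False := by
  have hne' : x - y ≠ 0 := sub_ne_zero.mpr hne
  obtain ⟨a, ha⟩ : ∃ a, a = x + y := ⟨_, rfl⟩
  have hb : x * y = 1 + a + a ^ 2 := by
    have h : (x - y) * (1 + a + a ^ 2 - x * y) = 0 := by
      simp only [Finset.sum_range_succ, Finset.sum_range_zero] at h4
      rw [ha]
      linear_combination h4
    rcases mul_eq_zero.mp h with h | h
    · exact absurd h hne'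
    · linear_combination -h
  have hrec : ∀ k : ℕ, x ^ (k + 2) - y ^ (k + 2)
      = a * (x ^ (k + 1) - y ^ (k + 1)) - (1 + a + a ^ 2) * (x ^ k - y ^ k) := by
    intro k
    rw [← hb, ha]
    ring
  have d0 : x ^ 0 - y ^ 0 = (x - y) * (0) := by ring
  have d1 : x ^ 1 - y ^ 1 = (x - y) * (1) := by ring
  have d2 : x ^ 2 - y ^ 2 = (x - y) * (1*a) := by
    rw [hrec 0, d1, d0]; ring
  have d3 : x ^ 3 - y ^ 3 = (x - y) * ((-1) + (-1)*a) := by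
    rw [hrec 1, d2, d1]; ring
  have d4 : x ^ 4 - y ^ 4 = (x - y) * ((-2)*a + (-2)*a^2 + (-1)*a^3) := by
    rw [hrec 2, d3, d2]; ring
  have d5 : x ^ 5 - y ^ 5 = (x - y) * (1 + 2*a + (-1)*a^3 + (-1)*a^4) := by
    rw [hrec 3, d4, d3]; ring
  have d6 : x ^ 6 - y ^ 6 = (x - y) * (3*a + 6*a^2 + 5*a^3 + 2*a^4) := by
    rw [hrec 4, d5, d4]; ring
  have d7 : x ^ 7 - y ^ 7 = (x - y) * ((-1) + (-3)*a + 5*a^3 + 7*a^4 + 4*a^5 + 1*a^6) := by
    rw [hrec 5, d6, d5]; ring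
  have d8 : x ^ 8 - y ^ 8 = (x - y) * ((-4)*a + (-12)*a^2 + (-14)*a^3 + (-8)*a^4 + 2*a^6 + 1*a^7) := by
    rw [hrec 6, d7, d6]; ring
  have d9 : x ^ 9 - y ^ 9 = (x - y) * (1 + 4*a + (-14)*a^3 + (-26)*a^4 + (-24)*a^5 + (-12)*a^6 + (-3)*a^7) := by
    rw [hrec 7, d8, d7]; ring
  have d10 : x ^ 10 - y ^ 10 = (x - y) * (5*a + 20*a^2 + 30*a^3 + 20*a^4 + (-4)*a^5 + (-18)*a^6 + (-15)*a^7 + (-6)*a^8 + (-1)*a^9) := by
    rw [hrec 8, d9, d8]; ring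
  have d11 : x ^ 11 - y ^ 11 = (x - y) * ((-1) + (-5)*a + 30*a^3 + 70*a^4 + 84*a^5 + 58*a^6 + 21*a^7 + (-3)*a^9 + (-1)*a^10) := by
    rw [hrec 9, d10, d9]; ring
  have d12 : x ^ 12 - y ^ 12 = (x - y) * ((-6)*a + (-30)*a^2 + (-55)*a^3 + (-40)*a^4 + 24*a^5 + 86*a^6 + 95*a^7 + 60*a^8 + 22*a^9 + 4*a^10) := by
    rw [hrec 10, d11, d10]; ring
  have d13 : x ^ 13 - y ^ 13 = (x - y) * (1 + 6*a + (-55)*a^3 + (-155)*a^4 + (-224)*a^5 + (-188)*a^6 + (-77)*a^7 + 16*a^8 + 42*a^9 + 26*a^10 + 8*a^11 + 1*a^12) := by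
    rw [hrec 11, d12, d11]; ring
  have d14 : x ^ 14 - y ^ 14 = (x - y) * (7*a + 42*a^2 + 91*a^3 + 70*a^4 + (-84)*a^5 + (-294)*a^6 + (-393)*a^7 + (-318)*a^8 + (-161)*a^9 + (-44)*a^10 + 4*a^12 + 1*a^13) := by
    rw [hrec 12, d13, d12]; ring
  have d15 : x ^ 15 - y ^ 15 = (x - y) * ((-1) + (-7)*a + 91*a^3 + 301*a^4 + 504*a^5 + 483*a^6 + 195*a^7 + (-144)*a^8 + (-299)*a^9 + (-245)*a^10 + (-120)*a^11 + (-35)*a^12 + (-5)*a^13) := by
    rw [hrec 13, d14, d13]; ring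
  have d16 : x ^ 16 - y ^ 16 = (x - y) * ((-8)*a + (-56)*a^2 + (-140)*a^3 + (-112)*a^4 + 224*a^5 + 812*a^6 + 1254*a^7 + 1200*a^8 + 728*a^9 + 224*a^10 + (-40)*a^11 + (-80)*a^12 + (-40)*a^13 + (-10)*a^14 + (-1)*a^15) := by
    rw [hrec 14, d15, d14]; ring
  have d17 : x ^ 17 - y ^ 17 = (x - y) * (1 + 8*a + (-140)*a^3 + (-532)*a^4 + (-1008)*a^5 + (-1064)*a^6 + (-370)*a^7 + 720*a^8 + 1448*a^9 + 1416*a^10 + 888*a^11 + 360*a^12 + 80*a^13 + (-5)*a^15 + (-1)*a^16) := by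
    rw [hrec 15, d16, d15]; ring
  have d18 : x ^ 18 - y ^ 18 = (x - y) * (9*a + 72*a^2 + 204*a^3 + 168*a^4 + (-504)*a^5 + (-1932)*a^6 + (-3354)*a^7 + (-3636)*a^8 + (-2462)*a^9 + (-704)*a^10 + 504*a^11 + 784*a^12 + 520*a^13 + 210*a^14 + 51*a^15 + 6*a^16) := by
    rw [hrec 16, d17, d16]; ring
  have d19 : x ^ 19 - y ^ 19 = (x - y) * ((-1) + (-9)*a + 204*a^3 + 876*a^4 + 1848*a^5 + 2100*a^6 + 510*a^7 + (-2640)*a^8 + (-5434)*a^9 + (-6046)*a^10 + (-4456)*a^11 + (-2160)*a^12 + (-544)*a^13 + 80*a^14 + 135*a^15 + 57*a^16 + 12*a^17 + 1*a^18) := by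
    rw [hrec 17, d18, d17]; ring
  have d20 : x ^ 20 - y ^ 20 = (x - y) * ((-10)*a + (-90)*a^2 + (-285)*a^3 + (-240)*a^4 + 1008*a^5 + 4116*a^6 + 7890*a^7 + 9432*a^8 + 6812*a^9 + 1368*a^10 + (-3384)*a^11 + (-5040)*a^12 + (-3968)*a^13 + (-2058)*a^14 + (-701)*a^15 + (-132)*a^16 + 6*a^18 + 1*a^19) := by
    rw [hrec 18, d19, d18]; ring
  have d21 : x ^ 21 - y ^ 21 = (x - y) * (1 + 10*a + (-285)*a^3 + (-1365)*a^4 + (-3168)*a^5 + (-3816)*a^6 + (-342)*a^7 + 7920*a^8 + 16996*a^9 + 20932*a^10 + 17304*a^11 + 9278*a^12 + 2120*a^13 + (-1344)*a^14 + (-1729)*a^15 + (-973)*a^16 + (-336)*a^17 + (-70)*a^18 + (-7)*a^19) := by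
    rw [hrec 19, d20, d19]; ring
  have d22 : x ^ 22 - y ^ 22 = (x - y) * (11*a + 110*a^2 + 385*a^3 + 330*a^4 + (-1848)*a^5 + (-8052)*a^6 + (-16830)*a^7 + (-21780)*a^8 + (-16214)*a^9 + (-616)*a^10 + 16136*a^11 + 24360*a^12 + 21670*a^13 + 13186*a^14 + 5383*a^15 + 1162*a^16 + (-140)*a^17 + (-210)*a^18 + (-77)*a^19 + (-14)*a^20 + (-1)*a^21) := by
    rw [hrec 20, d21, d20]; ring
  have d23 : x ^ 23 - y ^ 23 = (x - y) * ((-1) + (-11)*a + 385*a^3 + 2035*a^4 + 5148*a^5 + 6501*a^6 + (-726)*a^7 + (-20592)*a^8 + (-46354)*a^9 + (-62062)*a^10 + (-55848)*a^11 + (-31378)*a^12 + (-4342)*a^13 + 11616*a^14 + 14139*a^15 + 9429*a^16 + 4200*a^17 + 1239*a^18 + 203*a^19 + (-7)*a^21 + (-1)*a^22) := by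
    rw [hrec 21, d22, d21]; ring
  have d24 : x ^ 24 - y ^ 24 = (x - y) * ((-12)*a + (-132)*a^2 + (-506)*a^3 + (-440)*a^4 + 3168*a^5 + 14718*a^6 + 33231*a^7 + 45936*a^8 + 34232*a^9 + (-7744)*a^10 + (-61368)*a^11 + (-95728)*a^12 + (-93544)*a^13 + (-63558)*a^14 + (-28623)*a^15 + (-5592)*a^16 + 3024*a^17 + 3388*a^18 + 1666*a^19 + 504*a^20 + 92*a^21 + 8*a^22) := by
    rw [hrec 22, d23, d22]; ring
  have e10 : 1 + (-8)*a^2 + (-20)*a^3 + (-26)*a^4 + (-20)*a^5 + (-9)*a^6 + (-2)*a^7 = 0 := by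
    have h : (x - y) * (1 + (-8)*a^2 + (-20)*a^3 + (-26)*a^4 + (-20)*a^5 + (-9)*a^6 + (-2)*a^7) = 0 := by
      simp only [Finset.sum_range_succ, Finset.sum_range_zero] at h10
      linear_combination h10 - (d1+d2+d3+d4+d5+d6+d7+d8+d9)
    rcases mul_eq_zero.mp h with h | h
    · exact absurd h hne'
    · exact h
  have e23 : 1 + 11*a + 60*a^2 + 55*a^3 + (-635)*a^4 + (-3168)*a^5 + (-7718)*a^6 + (-11418)*a^7 + (-9176)*a^8 + 1474*a^9 + 16314*a^10 + 26840*a^11 + 27472*a^12 + 19834*a^13 + 10064*a^14 + 3133*a^15 + 119*a^16 + (-464)*a^17 + (-273)*a^18 + (-83)*a^19 + (-14)*a^20 + (-1)*a^21 = 0 := by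
    have h : (x - y) * (1 + 11*a + 60*a^2 + 55*a^3 + (-635)*a^4 + (-3168)*a^5 + (-7718)*a^6 + (-11418)*a^7 + (-9176)*a^8 + 1474*a^9 + 16314*a^10 + 26840*a^11 + 27472*a^12 + 19834*a^13 + 10064*a^14 + 3133*a^15 + 119*a^16 + (-464)*a^17 + (-273)*a^18 + (-83)*a^19 + (-14)*a^20 + (-1)*a^21) = 0 := by
      simp only [Finset.sum_range_succ, Finset.sum_range_zero] at h23
      linear_combination h23 - (d1+d2+d3+d4+d5+d6+d7+d8+d9+d10+d11+d12+d13+d14+d15+d16+d17+d18+d19+d20+d21+d22)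
    rcases mul_eq_zero.mp h with h | h
    · exact absurd h hne'
    · exact h
  have e25 : (-12)*a + (-72)*a^2 + (-66)*a^3 + 960*a^4 + 5148*a^5 + 13501*a^6 + 21087*a^7 + 16168*a^8 + (-10648)*a^9 + (-53492)*a^10 + (-90376)*a^11 + (-99634)*a^12 + (-78052)*a^13 + (-41878)*a^14 + (-11351)*a^15 + 3956*a^16 + 6760*a^17 + 4354*a^18 + 1786*a^19 + 490*a^20 + 84*a^21 + 7*a^22 = 0 := by
    have h : (x - y) * ((-12)*a + (-72)*a^2 + (-66)*a^3 + 960*a^4 + 5148*a^5 + 13501*a^6 + 21087*a^7 + 16168*a^8 + (-10648)*a^9 + (-53492)*a^10 + (-90376)*a^11 + (-99634)*a^12 + (-78052)*a^13 + (-41878)*a^14 + (-11351)*a^15 + 3956*a^16 + 6760*a^17 + 4354*a^18 + 1786*a^19 + 490*a^20 + 84*a^21 + 7*a^22) = 0 := by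
      simp only [Finset.sum_range_succ, Finset.sum_range_zero] at h25
      linear_combination h25 - (d1+d2+d3+d4+d5+d6+d7+d8+d9+d10+d11+d12+d13+d14+d15+d16+d17+d18+d19+d20+d21+d22+d23+d24)
    rcases mul_eq_zero.mp h with h | h
    · exact absurd h hne'
    · exact h
  have : (1 : K) = 0 := by
    linear_combination ((-1855100789535) + (-16586783529960)*a + (-103521898961110)*a^2 + (-203879214222425)*a^3 + 411650502650345*a^4 + 3103328999215060*a^5 + 7763851425880970*a^6 + 10610194403957505*a^7 + 6341898483439750*a^8 + (-5565629739332565)*a^9 + (-18325012969754295)*a^10 + (-23603574955537640)*a^11 + (-19363323794014620)*a^12 + (-10600373282130555)*a^13 + (-3410548239772170)*a^14 + (-94100896912295)*a^15 + 527612489258925*a^16 + 286267513992950*a^17 + 76204630472075*a^18 + 10112118029230*a^19 + 509243353990*a^20) * e10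
      + (1855100789536 + (-3468792391376)*a + (-33341068962010)*a^2 + (-23634999130953)*a^3 + 329883434995200*a^4 + 1452135788849426*a^5 + 3081082379505352*a^6 + 3515492047171452*a^7 + 554816403612978*a^8 + (-5934777068909604)*a^9 + (-12726380477975184)*a^10 + (-15538952408815176)*a^11 + (-12868466784849576)*a^12 + (-7092604197859224)*a^13 + (-1907084594816676)*a^14 + 719085985089948*a^15 + 1157367863024442*a^16 + 710297554079016*a^17 + 272087190689664*a^18 + 67605667167024*a^19 + 10023870184776*a^20 + 663740947968*a^21) * e23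
      + (29211063630 + (-4248002260098)*a + (-18886537952976)*a^2 + (-941898976254)*a^3 + 234541866429066*a^4 + 879056040588588*a^5 + 1694756841491538*a^6 + 1829219874116034*a^7 + 519466297490850*a^8 + (-1881576902985354)*a^9 + (-3928648582207158)*a^10 + (-4373806459882008)*a^11 + (-3262455550550178)*a^12 + (-1645657846318662)*a^13 + (-477106216226304)*a^14 + 10924924491894*a^15 + 85516740186384*a^16 + 43368363190776*a^17 + 11478893872704*a^18 + 1621621725816*a^19 + 94820135424*a^20) * e25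
  exact one_ne_zero this

end Pool.Agent.Work.MP_cb32b9_nt
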